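import Mathlib
import Pool.Agent.W545.QI.Stms

/-! EXP: expansion at the zero section -/

set_option autoImplicit false

open scoped ContDiff ComplexConjugate Real

namespace Pool.Agent.W407.QI.Exp

open Pool.Agent.W545.QI

lemma rpow_bd (R r : ℝ) (hR : 0 ≤ R) : ∃ M : ℝ, 0 ≤ M ∧ ∀ t : ℝ, 0 ≤ t → t ≤ R →
    (1 + t) ^ r ≤ M := by
  refine ⟨max 1 ((1 + R) ^ r), le_trans zero_le_one (le_max_left _ _), fun t h0 h1 => ?_⟩
  rcases le_total 0 r with hr | hr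
  · exact le_trans (Real.rpow_le_rpow (by linarith) (by linarith) hr) (le_max_right _ _)
  · exact le_trans (Real.rpow_le_one_of_one_le_of_nonpos (by linarith) hr) (le_max_left _ _)

lemma sym_bd {m : ℝ} {F : Ph → ℂ} (h : IsSymbol m F) (l : List (Fin 4)) (R : ℝ) (hR : 0 ≤ R) :
    ∃ B : ℝ, 0 ≤ B ∧ ∀ p : Ph, ‖p.2‖ ≤ R → ‖pds l F p‖ ≤ B := by
  obtain ⟨C, hC⟩ := h.2.2 l
  obtain ⟨M, hM, hM2⟩ := rpow_bd R (m - nxi l) hR
  refine ⟨|C| * M, by positivity, fun p hp => ?_⟩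
  refine (hC p).trans ?_
  refine mul_le_mul (le_abs_self C) (hM2 _ (norm_nonneg _) hp) ?_ (abs_nonneg C)
  exact Real.rpow_nonneg (by positivity) _

lemma pd_smooth {F : Ph → ℂ} (h : ContDiff ℝ ∞ F) (i : Fin 4) : ContDiff ℝ ∞ (pd i F) := by
  unfold pd
  exact (h.fderiv_right (m := ∞) (by simp)).clm_apply contDiff_const

/-- the point on the line -/
def ln (x k : ℝ × ℝ) (t : ℝ) : Ph := (x, (t * k.1, t * k.2))

lemma ln_deriv {F : Ph → ℂ} (h : ContDiff ℝ ∞ F) (x k : ℝ × ℝ) (t : ℝ) :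
    HasDerivAt (fun t => F (ln x k t))
      (k.1 * pd 2 F (ln x k t) + k.2 * pd 3 F (ln x k t)) t := by
  have h1 : HasDerivAt (ln x k) (((0, 0), (k.1, k.2)) : Ph) t := by
    refine HasDerivAt.prodMk (hasDerivAt_const t x) ?_
    refine HasDerivAt.prodMk ?_ ?_
    · simpa using (hasDerivAt_id t).mul_const k.1
    · simpa using (hasDerivAt_id t).mul_const k.2
  have h2 := ((h.differentiable (by simp)) (ln x k t)).hasFDerivAt
  have h3 := h2.comp_hasDerivAt t h1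
  refine h3.congr_deriv ?_
  have e : (((0, 0), (k.1, k.2)) : Ph) = k.1 • dir 2 + k.2 • dir 3 := by
    simp [dir]
  rw [e, map_add, map_smul, map_smul]
  simp only [pd, Complex.real_smul]

lemma ln_norm (x k : ℝ × ℝ) (t h₀ : ℝ) (h0 : 0 ≤ t) (h1 : t ≤ h₀) :
    ‖(ln x k t).2‖ ≤ h₀ * (|k.1| + |k.2|) := by
  simp only [ln, Prod.norm_def, Real.norm_eq_abs, abs_mul, abs_of_nonneg h0]
  have a1 := abs_nonneg k.1
  have a2 := abs_nonneg k.2
  apply max_le <;> nlinarith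

/-- mean value along the line -/
lemma mv {F : Ph → ℂ} (h : ContDiff ℝ ∞ F) (x k : ℝ × ℝ) (B t : ℝ) (ht : 0 ≤ t)
    (hB : 0 ≤ B) (h2 : ∀ s, 0 ≤ s → s ≤ t → ‖pd 2 F (ln x k s)‖ ≤ B)
    (h3 : ∀ s, 0 ≤ s → s ≤ t → ‖pd 3 F (ln x k s)‖ ≤ B) :
    ‖F (ln x k t) - F (ln x k 0)‖ ≤ (|k.1| + |k.2|) * B * t := by
  have := norm_image_sub_le_of_norm_deriv_le_segment' (f := fun s => F (ln x k s))
    (f' := fun s => k.1 * pd 2 F (ln x k s) + k.2 * pd 3 F (ln x k s)) (a := 0) (b := t)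
    (C := (|k.1| + |k.2|) * B) (fun s _ => (ln_deriv h x k s).hasDerivWithinAt)
    (fun s hs => by
      refine (norm_add_le _ _).trans ?_
      rw [norm_mul, norm_mul, Complex.norm_real, Complex.norm_real, Real.norm_eq_abs,
        Real.norm_eq_abs, add_mul]
      exact add_le_add (mul_le_mul_of_nonneg_left (h2 s hs.1 hs.2.le) (abs_nonneg _))
        (mul_le_mul_of_nonneg_left (h3 s hs.1 hs.2.le) (abs_nonneg _)))
    t ⟨ht, le_refl t⟩
  simpa using this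

theorem t : S_EXP := by
  intro h₀ m P a σ hh0 hS k
  set κ : ℝ × ℝ := ((k.1 : ℝ), (k.2 : ℝ)) with hκ
  set K : ℝ := |κ.1| + |κ.2| with hK
  have hK0 : 0 ≤ K := by positivity
  have hR : 0 ≤ h₀ * K := by positivity
  obtain ⟨C0, hC0⟩ := hS.expan 3 []
  obtain ⟨M, hM0, hM⟩ := rpow_bd (h₀ * K) (m - (3 : ℕ) - nxi []) hR
  have s1 := (hS.coeff 1)
  have s2 := (hS.coeff 2)
  -- second derivatives of σ 1
  obtain ⟨B22, p22, b22⟩ := sym_bd s1 [2, 2] _ hR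
  obtain ⟨B23, p23, b23⟩ := sym_bd s1 [2, 3] _ hR
  obtain ⟨B32, p32, b32⟩ := sym_bd s1 [3, 2] _ hR
  obtain ⟨B33, p33, b33⟩ := sym_bd s1 [3, 3] _ hR
  obtain ⟨D2, q2, d2⟩ := sym_bd s2 [2] _ hR
  obtain ⟨D3, q3, d3⟩ := sym_bd s2 [3] _ hR
  set B : ℝ := B22 + B23 + B32 + B33 with hBdef
  have hB : 0 ≤ B := by positivity
  set D : ℝ := D2 + D3 with hDdef
  have hD : 0 ≤ D := by positivity
  refine ⟨|C0| * M + K * (K * B) + K * D, fun h hp hle x => ?_⟩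
  have epnt : (x, (h * (k.1 : ℝ), h * (k.2 : ℝ))) = ln x κ h := rfl
  have epnt0 : ((x, (0, 0)) : Ph) = ln x κ 0 := by simp [ln]
  rw [epnt, epnt0]
  have e1 : ‖a h (ln x κ h) - (σ 0 (ln x κ h) + h * σ 1 (ln x κ h) + h ^ 2 * σ 2 (ln x κ h))‖ ≤
      |C0| * M * h ^ 3 := by
    have := hC0 h hp hle (ln x κ h)
    simp only [pds, Finset.sum_range_succ, Finset.sum_range_zero, zero_add, pow_zero, one_mul,
      pow_one] at this
    refine this.trans ?_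
    have hM' := hM _ (norm_nonneg _) (ln_norm x κ h h₀ hp.le hle)
    have hh3 : 0 < h ^ 3 := by positivity
    have hr : 0 ≤ (1 + ‖(ln x κ h).2‖) ^ (m - (3 : ℕ) - nxi []) :=
      Real.rpow_nonneg (by positivity) _
    calc C0 * h ^ 3 * (1 + ‖(ln x κ h).2‖) ^ (m - (3 : ℕ) - nxi [])
        ≤ |C0| * h ^ 3 * (1 + ‖(ln x κ h).2‖) ^ (m - (3 : ℕ) - nxi []) :=
          mul_le_mul_of_nonneg_right
            (mul_le_mul_of_nonneg_right (le_abs_self _) hh3.le) hr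
      _ ≤ |C0| * h ^ 3 * M := mul_le_mul_of_nonneg_left hM' (by positivity)
      _ = _ := by ring
  have hseg : ∀ s, 0 ≤ s → s ≤ h → ‖(ln x κ s).2‖ ≤ h₀ * K := fun s h0 h1 =>
    ln_norm x κ s h₀ h0 (h1.trans hle)
  have e3 : ‖σ 2 (ln x κ h) - σ 2 (ln x κ 0)‖ ≤ K * D * h := by
    refine mv s2.1 x κ D h hp.le hD ?_ ?_
    · intro s h0 h1
      exact (d2 _ (hseg s h0 h1)).trans (by linarith)
    · intro s h0 h1
      exact (d3 _ (hseg s h0 h1)).trans (by linarith)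
  have e4 : ∀ s, 0 ≤ s → s ≤ h →
      ‖pd 2 (σ 1) (ln x κ s) - pd 2 (σ 1) (ln x κ 0)‖ ≤ K * B * s := by
    intro s h0 h1
    refine mv (pd_smooth s1.1 2) x κ B s h0 hB ?_ ?_
    · intro r hr0 hr1
      exact (b22 _ (hseg r hr0 (hr1.trans h1))).trans (by linarith)
    · intro r hr0 hr1
      exact (b23 _ (hseg r hr0 (hr1.trans h1))).trans (by linarith)
  have e5 : ∀ s, 0 ≤ s → s ≤ h →
      ‖pd 3 (σ 1) (ln x κ s) - pd 3 (σ 1) (ln x κ 0)‖ ≤ K * B * s := by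
    intro s h0 h1
    refine mv (pd_smooth s1.1 3) x κ B s h0 hB ?_ ?_
    · intro r hr0 hr1
      exact (b32 _ (hseg r hr0 (hr1.trans h1))).trans (by linarith)
    · intro r hr0 hr1
      exact (b33 _ (hseg r hr0 (hr1.trans h1))).trans (by linarith)
  set c : ℂ := κ.1 * pd 2 (σ 1) (ln x κ 0) + κ.2 * pd 3 (σ 1) (ln x κ 0) with hc
  have e2 : ‖σ 1 (ln x κ h) - σ 1 (ln x κ 0) - h * c‖ ≤ K * (K * B) * h ^ 2 := by
    have := norm_image_sub_le_of_norm_deriv_le_segment' (f := fun s : ℝ => σ 1 (ln x κ s) - s * c)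
      (f' := fun s => (κ.1 * pd 2 (σ 1) (ln x κ s) + κ.2 * pd 3 (σ 1) (ln x κ s)) - c)
      (a := 0) (b := h) (C := K * (K * B * h))
      (fun s _ => by
        have hs := (ln_deriv s1.1 x κ s).sub (((hasDerivAt_id s).ofReal_comp).mul_const c)
        refine (hs.congr_deriv ?_).hasDerivWithinAt
        simp)
      (fun s hs => by
        have e : (κ.1 * pd 2 (σ 1) (ln x κ s) + κ.2 * pd 3 (σ 1) (ln x κ s)) - c =
          κ.1 * (pd 2 (σ 1) (ln x κ s) - pd 2 (σ 1) (ln x κ 0)) +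
          κ.2 * (pd 3 (σ 1) (ln x κ s) - pd 3 (σ 1) (ln x κ 0)) := by rw [hc]; ring
        rw [e]
        refine (norm_add_le _ _).trans ?_
        rw [norm_mul, norm_mul, Complex.norm_real, Complex.norm_real, Real.norm_eq_abs,
          Real.norm_eq_abs, hK, add_mul]
        have hsh : K * B * s ≤ K * B * h :=
          mul_le_mul_of_nonneg_left hs.2.le (by positivity)
        exact add_le_add
          (mul_le_mul_of_nonneg_left ((e4 s hs.1 hs.2.le).trans hsh) (abs_nonneg _))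
          (mul_le_mul_of_nonneg_left ((e5 s hs.1 hs.2.le).trans hsh) (abs_nonneg _)))
      h ⟨hp.le, le_refl h⟩
    have e : σ 1 (ln x κ h) - σ 1 (ln x κ 0) - h * c =
      (σ 1 (ln x κ h) - h * c) - (σ 1 (ln x κ 0) - ((0 : ℝ) : ℂ) * c) := by
      push_cast; ring
    rw [e]
    refine this.trans (le_of_eq (by ring))
  have etot : a h (ln x κ h) - (σ 0 (ln x κ h) + h * σ 1 (ln x κ 0) +
      h ^ 2 * (k.1 * pd 2 (σ 1) (ln x κ 0) + k.2 * pd 3 (σ 1) (ln x κ 0) + σ 2 (ln x κ 0))) =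
      (a h (ln x κ h) - (σ 0 (ln x κ h) + h * σ 1 (ln x κ h) + h ^ 2 * σ 2 (ln x κ h))) +
      (h * (σ 1 (ln x κ h) - σ 1 (ln x κ 0) - h * c) +
       h ^ 2 * (σ 2 (ln x κ h) - σ 2 (ln x κ 0))) := by
    have k1 : ((k.1 : ℤ) : ℂ) = ((κ.1 : ℝ) : ℂ) := by simp [hκ]
    have k2 : ((k.2 : ℤ) : ℂ) = ((κ.2 : ℝ) : ℂ) := by simp [hκ]
    rw [k1, k2, hc]
    ring
  rw [etot]
  refine (norm_add_le _ _).trans ?_
  have f1 : ‖(h : ℂ) * (σ 1 (ln x κ h) - σ 1 (ln x κ 0) - h * c)‖ ≤ K * (K * B) * h ^ 3 := by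
    rw [norm_mul, Complex.norm_real, Real.norm_eq_abs, abs_of_pos hp]
    exact (mul_le_mul_of_nonneg_left e2 hp.le).trans (le_of_eq (by ring))
  have f2 : ‖(h : ℂ) ^ 2 * (σ 2 (ln x κ h) - σ 2 (ln x κ 0))‖ ≤ K * D * h ^ 3 := by
    rw [norm_mul, norm_pow, Complex.norm_real, Real.norm_eq_abs, abs_of_pos hp]
    exact (mul_le_mul_of_nonneg_left e3 (by positivity)).trans (le_of_eq (by ring))
  have f3 := norm_add_le ((h : ℂ) * (σ 1 (ln x κ h) - σ 1 (ln x κ 0) - h * c))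
    ((h : ℂ) ^ 2 * (σ 2 (ln x κ h) - σ 2 (ln x κ 0)))
  calc _ ≤ |C0| * M * h ^ 3 + (K * (K * B) * h ^ 3 + K * D * h ^ 3) := by linarith
    _ = _ := by ring

end Pool.Agent.W407.QI.Exp
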