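import Mathlib
import Pool.Agent.W545.QI.Stms

/-! SYM: the functions are Kohn-Nirenberg symbols -/

set_option autoImplicit false

open scoped ContDiff ComplexConjugate Real

namespace Pool.Agent.W407.QI

open Pool.Agent.W545.QI

/-- polynomials in the momenta with trigonometric coefficients -/
inductive Q : ℤ → (Ph → ℂ) → Prop
  | zero (m : ℤ) : Q m (fun _ => 0)
  | const (c : ℂ) : Q 0 (fun _ => c)
  | cos1 : Q 0 (fun p => (Real.cos p.1.1 : ℂ))
  | sin1 : Q 0 (fun p => (Real.sin p.1.1 : ℂ))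
  | cos2 : Q 0 (fun p => (Real.cos p.1.2 : ℂ))
  | sin2 : Q 0 (fun p => (Real.sin p.1.2 : ℂ))
  | xi1 : Q 1 (fun p => (p.2.1 : ℂ))
  | xi2 : Q 1 (fun p => (p.2.2 : ℂ))
  | add {m : ℤ} {F G : Ph → ℂ} : Q m F → Q m G → Q m (fun p => F p + G p)
  | mul {m n : ℤ} {F G : Ph → ℂ} : Q m F → Q n G → Q (m + n) (fun p => F p * G p)

lemma Q.congr {m n : ℤ} {F G : Ph → ℂ} (h : Q m F) (e : m = n) (h2 : ∀ p, F p = G p) :
    Q n G := by
  subst e
  have : F = G := funext h2
  subst this
  exact h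

lemma Q.smooth {m : ℤ} {F : Ph → ℂ} (h : Q m F) : ContDiff ℝ ∞ F := by
  induction h with
  | zero m => exact contDiff_const
  | const c => exact contDiff_const
  | cos1 => exact Complex.ofRealCLM.contDiff.comp (Real.contDiff_cos.comp
      (contDiff_fst.comp contDiff_fst))
  | sin1 => exact Complex.ofRealCLM.contDiff.comp (Real.contDiff_sin.comp
      (contDiff_fst.comp contDiff_fst))
  | cos2 => exact Complex.ofRealCLM.contDiff.comp (Real.contDiff_cos.comp
      (contDiff_snd.comp contDiff_fst))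
  | sin2 => exact Complex.ofRealCLM.contDiff.comp (Real.contDiff_sin.comp
      (contDiff_snd.comp contDiff_fst))
  | xi1 => exact Complex.ofRealCLM.contDiff.comp (contDiff_fst.comp contDiff_snd)
  | xi2 => exact Complex.ofRealCLM.contDiff.comp (contDiff_snd.comp contDiff_snd)
  | add _ _ h1 h2 => exact h1.add h2
  | mul _ _ h1 h2 => exact h1.mul h2

lemma cper (x : ℝ) (n : ℤ) : Real.cos (x + 2 * π * n) = Real.cos x := by
  rw [mul_comm]; exact Real.cos_add_int_mul_two_pi x n

lemma sper (x : ℝ) (n : ℤ) : Real.sin (x + 2 * π * n) = Real.sin x := by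
  rw [mul_comm]; exact Real.sin_add_int_mul_two_pi x n

lemma Q.per {m : ℤ} {F : Ph → ℂ} (h : Q m F) : PerPh F := by
  induction h with
  | zero m => exact fun _ _ _ => rfl
  | const c => exact fun _ _ _ => rfl
  | cos1 => intro ξ x n; simp only [cper]
  | sin1 => intro ξ x n; simp only [sper]
  | cos2 => intro ξ x n; simp only [cper]
  | sin2 => intro ξ x n; simp only [sper]
  | xi1 => exact fun _ _ _ => rfl
  | xi2 => exact fun _ _ _ => rfl
  | add _ _ h1 h2 => intro ξ x n; exact congrArg₂ (· + ·) (h1 ξ x n) (h2 ξ x n)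
  | mul _ _ h1 h2 => intro ξ x n; exact congrArg₂ (· * ·) (h1 ξ x n) (h2 ξ x n)

lemma Q.bound {m : ℤ} {F : Ph → ℂ} (h : Q m F) :
    ∃ C : ℝ, 0 ≤ C ∧ ∀ p : Ph, ‖F p‖ ≤ C * (1 + ‖p.2‖) ^ (m : ℝ) := by
  have hp : ∀ p : Ph, 0 < 1 + ‖p.2‖ := fun p => by positivity
  induction h with
  | zero m => exact ⟨0, le_refl _, fun p => by simp⟩
  | const c => exact ⟨‖c‖, norm_nonneg _, fun p => by simp⟩
  | cos1 => exact ⟨1, zero_le_one, fun p => by
      rw [Complex.norm_real, Real.norm_eq_abs]; simpa using Real.abs_cos_le_one _⟩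
  | sin1 => exact ⟨1, zero_le_one, fun p => by
      rw [Complex.norm_real, Real.norm_eq_abs]; simpa using Real.abs_sin_le_one _⟩
  | cos2 => exact ⟨1, zero_le_one, fun p => by
      rw [Complex.norm_real, Real.norm_eq_abs]; simpa using Real.abs_cos_le_one _⟩
  | sin2 => exact ⟨1, zero_le_one, fun p => by
      rw [Complex.norm_real, Real.norm_eq_abs]; simpa using Real.abs_sin_le_one _⟩
  | xi1 => exact ⟨1, zero_le_one, fun p => by
      rw [Complex.norm_real, Int.cast_one, Real.rpow_one, one_mul]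
      have := norm_fst_le p.2
      linarith⟩
  | xi2 => exact ⟨1, zero_le_one, fun p => by
      rw [Complex.norm_real, Int.cast_one, Real.rpow_one, one_mul]
      have := norm_snd_le p.2
      linarith⟩
  | add _ _ h1 h2 =>
    obtain ⟨C1, hC1, h1⟩ := h1
    obtain ⟨C2, hC2, h2⟩ := h2
    refine ⟨C1 + C2, by positivity, fun p => ?_⟩
    rw [add_mul]
    exact (norm_add_le _ _).trans (add_le_add (h1 p) (h2 p))
  | mul _ _ h1 h2 =>
    obtain ⟨C1, hC1, h1⟩ := h1
    obtain ⟨C2, hC2, h2⟩ := h2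
    refine ⟨C1 * C2, by positivity, fun p => ?_⟩
    rw [norm_mul, Int.cast_add, Real.rpow_add (hp p)]
    refine (mul_le_mul (h1 p) (h2 p) (norm_nonneg _) ?_).trans (le_of_eq (by ring))
    exact mul_nonneg hC1 (Real.rpow_nonneg (hp p).le _)

/-- derivative of a function of one coordinate -/
lemma pd_comp (i : Fin 4) (g g' : ℝ → ℝ) (hg : ∀ t, HasDerivAt g (g' t) t) (A : Ph →L[ℝ] ℝ)
    (p : Ph) : pd i (fun p => ((g (A p) : ℝ) : ℂ)) p = ((g' (A p) * A (dir i) : ℝ) : ℂ) := by
  have h1 : HasFDerivAt (fun p : Ph => g (A p)) (g' (A p) • A) p :=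
    (hg (A p)).comp_hasFDerivAt p A.hasFDerivAt
  have h2 := Complex.ofRealCLM.hasFDerivAt.comp p h1
  unfold pd
  have h3 : HasFDerivAt (fun p : Ph => ((g (A p) : ℝ) : ℂ))
    (Complex.ofRealCLM.comp (g' (A p) • A)) p := h2
  rw [h3.fderiv]
  simp

/-- the loss -/
def ls (i : Fin 4) : ℤ := if 2 ≤ i.val then 1 else 0

lemma Q.pd {m : ℤ} {F : Ph → ℂ} (h : Q m F) (i : Fin 4) : Q (m - ls i) (pd i F) := by
  induction h with
  | zero m =>
    refine (Q.zero (m - ls i)).congr rfl fun p => ?_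
    simp [Pool.Agent.W545.QI.pd]
  | const c =>
    refine (Q.zero (0 - ls i)).congr rfl fun p => ?_
    simp [Pool.Agent.W545.QI.pd]
  | cos1 =>
    have e := pd_comp i Real.cos (fun t => -Real.sin t) Real.hasDerivAt_cos
      ((ContinuousLinearMap.fst ℝ ℝ ℝ).comp (ContinuousLinearMap.fst ℝ (ℝ × ℝ) (ℝ × ℝ)))
    fin_cases i
    · refine (Q.mul (Q.const (-1)) Q.sin1).congr (by simp [ls]) fun p => ?_
      refine Eq.trans ?_ (e p).symm
      simp [dir]
    all_goals
      refine (Q.zero _).congr rfl fun p => ?_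
      refine Eq.trans ?_ (e p).symm
      simp [dir]
  | sin1 =>
    have e := pd_comp i Real.sin (fun t => Real.cos t) Real.hasDerivAt_sin
      ((ContinuousLinearMap.fst ℝ ℝ ℝ).comp (ContinuousLinearMap.fst ℝ (ℝ × ℝ) (ℝ × ℝ)))
    fin_cases i
    · refine Q.cos1.congr (by simp [ls]) fun p => ?_
      refine Eq.trans ?_ (e p).symm
      simp [dir]
    all_goals
      refine (Q.zero _).congr rfl fun p => ?_
      refine Eq.trans ?_ (e p).symm
      simp [dir]
  | cos2 =>
    have e := pd_comp i Real.cos (fun t => -Real.sin t) Real.hasDerivAt_cos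
      ((ContinuousLinearMap.snd ℝ ℝ ℝ).comp (ContinuousLinearMap.fst ℝ (ℝ × ℝ) (ℝ × ℝ)))
    fin_cases i
    · refine (Q.zero _).congr rfl fun p => ?_
      refine Eq.trans ?_ (e p).symm
      simp [dir]
    · refine (Q.mul (Q.const (-1)) Q.sin2).congr (by simp [ls]) fun p => ?_
      refine Eq.trans ?_ (e p).symm
      simp [dir]
    all_goals
      refine (Q.zero _).congr rfl fun p => ?_
      refine Eq.trans ?_ (e p).symm
      simp [dir]
  | sin2 =>
    have e := pd_comp i Real.sin (fun t => Real.cos t) Real.hasDerivAt_sin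
      ((ContinuousLinearMap.snd ℝ ℝ ℝ).comp (ContinuousLinearMap.fst ℝ (ℝ × ℝ) (ℝ × ℝ)))
    fin_cases i
    · refine (Q.zero _).congr rfl fun p => ?_
      refine Eq.trans ?_ (e p).symm
      simp [dir]
    · refine Q.cos2.congr (by simp [ls]) fun p => ?_
      refine Eq.trans ?_ (e p).symm
      simp [dir]
    all_goals
      refine (Q.zero _).congr rfl fun p => ?_
      refine Eq.trans ?_ (e p).symm
      simp [dir]
  | xi1 =>
    have e := pd_comp i id (fun t => 1) hasDerivAt_id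
      ((ContinuousLinearMap.fst ℝ ℝ ℝ).comp (ContinuousLinearMap.snd ℝ (ℝ × ℝ) (ℝ × ℝ)))
    fin_cases i
    · refine (Q.zero _).congr rfl fun p => ?_
      refine Eq.trans ?_ (e p).symm
      simp [dir]
    · refine (Q.zero _).congr rfl fun p => ?_
      refine Eq.trans ?_ (e p).symm
      simp [dir]
    · refine (Q.const 1).congr (by simp [ls]) fun p => ?_
      refine Eq.trans ?_ (e p).symm
      simp [dir]
    · refine (Q.zero _).congr rfl fun p => ?_
      refine Eq.trans ?_ (e p).symm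
      simp [dir]
  | xi2 =>
    have e := pd_comp i id (fun t => 1) hasDerivAt_id
      ((ContinuousLinearMap.snd ℝ ℝ ℝ).comp (ContinuousLinearMap.snd ℝ (ℝ × ℝ) (ℝ × ℝ)))
    fin_cases i
    · refine (Q.zero _).congr rfl fun p => ?_
      refine Eq.trans ?_ (e p).symm
      simp [dir]
    · refine (Q.zero _).congr rfl fun p => ?_
      refine Eq.trans ?_ (e p).symm
      simp [dir]
    · refine (Q.zero _).congr rfl fun p => ?_
      refine Eq.trans ?_ (e p).symm
      simp [dir]
    · refine (Q.const 1).congr (by simp [ls]) fun p => ?_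
      refine Eq.trans ?_ (e p).symm
      simp [dir]
  | @add m F G hF hG h1 h2 =>
    refine (Q.add h1 h2).congr rfl fun p => ?_
    have d1 : DifferentiableAt ℝ F p := hF.smooth.differentiable (by simp) p
    have d2 : DifferentiableAt ℝ G p := hG.smooth.differentiable (by simp) p
    simp only [Pool.Agent.W545.QI.pd]
    rw [fderiv_fun_add d1 d2]
    rfl
  | @mul m n F G hF hG h1 h2 =>
    have k1 : Q (m + n - ls i) (fun p => Pool.Agent.W545.QI.pd i F p * G p) :=
      (Q.mul h1 hG).congr (by ring) fun p => rfl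
    have k2 : Q (m + n - ls i) (fun p => F p * Pool.Agent.W545.QI.pd i G p) :=
      (Q.mul hF h2).congr (by ring) fun p => rfl
    refine (Q.add k1 k2).congr rfl fun p => ?_
    have d1 : DifferentiableAt ℝ F p := hF.smooth.differentiable (by simp) p
    have d2 : DifferentiableAt ℝ G p := hG.smooth.differentiable (by simp) p
    simp only [Pool.Agent.W545.QI.pd]
    rw [fderiv_fun_mul d1 d2]
    simp only [ContinuousLinearMap.add_apply, ContinuousLinearMap.smul_apply, smul_eq_mul]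
    ring

lemma Q.pds (l : List (Fin 4)) : ∀ {m : ℤ} {F : Ph → ℂ}, Q m F → Q (m - nxi l) (pds l F) := by
  induction l with
  | nil => intro m F h; exact h.congr (by simp [nxi]) fun p => rfl
  | cons i l ih =>
    intro m F h
    refine (ih (h.pd i)).congr ?_ fun p => rfl
    simp only [nxi, ls]
    split_ifs <;> push_cast <;> ring

lemma Q.isSymbol {m : ℤ} {F : Ph → ℂ} (h : Q m F) : IsSymbol m F := by
  refine ⟨h.smooth, h.per, fun l => ?_⟩
  obtain ⟨C, _, hC⟩ := (Q.pds l h).bound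
  refine ⟨C, fun p => ?_⟩
  have := hC p
  push_cast at this
  exact this

/-- powers -/
lemma Q.pow0 {F : Ph → ℂ} (h : Q 0 F) (n : ℕ) : Q 0 (fun p => F p ^ n) := by
  induction n with
  | zero => exact (Q.const 1).congr rfl fun p => by simp
  | succ n ih => exact (Q.mul ih h).congr (by simp) fun p => by rw [pow_succ]

theorem t : S_SYM := by
  have cc := Q.const
  -- the three factors
  have A1 : Q 0 (fun p => (Real.sin p.1.1 : ℂ) + 3 * (Real.cos p.1.1 : ℂ)) :=
    Q.add Q.sin1 ((Q.mul (Q.const 3) Q.cos1).congr (by simp) fun p => rfl)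
  have A2 : Q 0 (fun p => (Real.sin p.1.1 : ℂ) + (-1) * (Real.cos p.1.1 : ℂ)) :=
    Q.add Q.sin1 ((Q.mul (Q.const (-1)) Q.cos1).congr (by simp) fun p => rfl)
  have A3 : Q 0 (fun p => (Real.sin p.1.1 : ℂ) + (-2) * (Real.cos p.1.1 : ℂ)) :=
    Q.add Q.sin1 ((Q.mul (Q.const (-2)) Q.cos1).congr (by simp) fun p => rfl)
  have hq : Q 0 (fun p => ((q p.1.1 : ℝ) : ℂ)) := by
    refine (Q.mul (Q.mul (Q.mul Q.cos1 A1) A2) A3).congr (by simp) fun p => ?_
    simp only [q]
    push_cast
    ring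
  have hf : Q 0 (fun p => ((f p.1.1 : ℝ) : ℂ)) := by
    refine (Q.mul (Q.mul (Q.cos1.pow0 4) A1) (A2.pow0 3)).congr (by simp) fun p => ?_
    simp only [f]
    push_cast
    ring
  refine ⟨⟨((1 : ℤ) : ℝ), ?_⟩, ⟨((2 : ℤ) : ℝ), ?_⟩⟩
  · have h1 : Q 1 (fun p => (Real.cos p.1.2 : ℂ) * ((q p.1.1 : ℝ) : ℂ) * (p.2.1 : ℂ)) :=
      (Q.mul (Q.mul Q.cos2 hq) Q.xi1).congr (by simp) fun p => rfl
    have h2 : Q 1 (fun p => 2 * (Real.sin p.1.2 : ℂ) * (p.2.2 : ℂ)) :=
      (Q.mul (Q.mul (Q.const 2) Q.sin2) Q.xi2).congr (by simp) fun p => rfl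
    refine Q.isSymbol ((Q.add h1 h2).congr rfl fun p => ?_)
    simp only [p₁]
    push_cast
    ring
  · refine Q.isSymbol ((Q.mul (Q.mul Q.sin2 hf) (Q.mul Q.xi1 Q.xi1)).congr (by norm_num)
      fun p => ?_)
    simp only [p₂]
    push_cast
    ring

end Pool.Agent.W407.QI
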